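import Pool.Agent.Y560.TF.All
import Pool.Agent.Y815.TH.Loc
import Pool.Agent.Y287.TH.Rev
import Pool.Agent.Y454.TH.Dec

set_option autoImplicit false

/-!
The countable-or-perfect dichotomy for circular orders with an action of an arbitrary countable
group by maps which preserve or reverse the orientation, and unary predicates.
-/

namespace Pool.Agent.Results.MP_5607ba_lc.CircularOrderActions

/-- Structures on `ℕ`: a ternary relation `x.1`, a function `x.2.1 γ` for every `γ` in `Γ`, and
unary predicates `x.2.2 i`. -/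
abbrev Structures (Γ : Type) : Type := (ℕ → ℕ → ℕ → Bool) × (Γ → ℕ → ℕ) × (ℕ → ℕ → Bool)

/-- `x.1` is a strict circular order on `ℕ` (`x.1 a b c`: going round the circle in the positive
direction from `a` one meets `b` before `c`), `x.2.1` is an action of `Γ`, and every element of `Γ`
preserves or reverses the orientation. -/
structure CircularAction {Γ : Type} [Group Γ] (x : Structures Γ) : Prop where
  cyclic : ∀ a b c, x.1 a b c = true → x.1 b c a = true
  asymm : ∀ a b c, x.1 a b c = true → x.1 c b a = false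
  trans : ∀ a b c d, x.1 a b c = true → x.1 a c d = true → x.1 a b d = true
  total : ∀ a b c, a ≠ b → b ≠ c → a ≠ c → x.1 a b c = true ∨ x.1 c b a = true
  one : ∀ m, x.2.1 1 m = m
  mul : ∀ γ δ m, x.2.1 (γ * δ) m = x.2.1 γ (x.2.1 δ m)
  monotone : ∀ γ,
    (∀ a b c, x.1 a b c = true → x.1 (x.2.1 γ a) (x.2.1 γ b) (x.2.1 γ c) = true) ∨
    (∀ a b c, x.1 a b c = true → x.1 (x.2.1 γ c) (x.2.1 γ b) (x.2.1 γ a) = true)

/-- `σ` is an isomorphism from `x` to `y`: the two structures are in one orbit of the action of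
the Polish group of permutations of `ℕ` by relabelling. -/
def IsIso {Γ : Type} (σ : Equiv.Perm ℕ) (x y : Structures Γ) : Prop :=
  (∀ a b c, y.1 (σ a) (σ b) (σ c) = x.1 a b c) ∧ (∀ γ m, y.2.1 γ (σ m) = σ (x.2.1 γ m)) ∧
    ∀ i m, y.2.2 i (σ m) = x.2.2 i m

/-- Let `Γ` be a countable group. Every invariant Borel set `B` of circular orders on `ℕ` with an
action of `Γ` by maps which preserve or reverse the orientation, and with unary predicates,
contains countably many orbits, or there is a continuous map from the Cantor space into `B` that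
sends different points to different orbits. -/
theorem result (Γ : Type) [Group Γ] [Countable Γ] (B : Set (Structures Γ))
    (hB : MeasurableSet B) (hC : ∀ x ∈ B, CircularAction x)
    (hi : ∀ x ∈ B, ∀ (y : Structures Γ) (σ : Equiv.Perm ℕ), IsIso σ x y → y ∈ B) :
    (∃ f : ℕ → Structures Γ, ∀ x ∈ B, ∃ (n : ℕ) (σ : Equiv.Perm ℕ), IsIso σ (f n) x) ∨
    (∃ c : (ℕ → Bool) → Structures Γ, Continuous c ∧ (∀ a, c a ∈ B) ∧
      ∀ a b, (∃ σ : Equiv.Perm ℕ, IsIso σ (c a) (c b)) → a = b) :=
  Pool.Agent.Y454.TH.t_CIRC2 (Pool.Agent.Y287.TH.t_REV (Pool.Agent.Y815.TH.t_LOC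
    (fun Δ _ _ => Pool.Agent.Y560.TF.out Δ))) Γ B hB
    (fun x hx => ⟨(hC x hx).cyclic, (hC x hx).asymm, (hC x hx).trans, (hC x hx).total,
      (hC x hx).one, (hC x hx).mul, (hC x hx).monotone⟩) hi

end Pool.Agent.Results.MP_5607ba_lc.CircularOrderActions
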