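import Pool.Agent.Y560.TC.All
import Pool.Agent.Y560.TF.All
import Pool.Agent.Y259.TH.TDA
import Pool.Agent.Y641.TH.Dec

set_option autoImplicit false

/-!
The countable-or-perfect dichotomy for automorphism groups of hereditarily decomposable structures
acting by conjugation on the homomorphisms from a countable group to them, and more generally on
expansions.
-/

namespace Pool.Agent.Results.MP_5607ba_lc.ConjugationActions

/-- Structures on `ℕ`: binary relations `x.1 i`, a function `x.2.1 γ` for every `γ` in `Γ`, and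
unary predicates `x.2.2 i`. -/
abbrev Structures (Γ : Type) : Type := (ℕ → ℕ → ℕ → Bool) × (Γ → ℕ → ℕ) × (ℕ → ℕ → Bool)

/-- `σ` is an isomorphism from `x` to `y`. -/
def IsIso {Γ : Type} (σ : Equiv.Perm ℕ) (x y : Structures Γ) : Prop :=
  (∀ i m n, y.1 i (σ m) (σ n) = x.1 i m n) ∧ (∀ γ m, y.2.1 γ (σ m) = σ (x.2.1 γ m)) ∧
    ∀ i m, y.2.2 i (σ m) = x.2.2 i m

/-- The Polish group `G` of all automorphisms of `N` (a closed subgroup of the group of all
permutations of `ℕ`; every countable group `Γ₀` and every structure `N` are allowed). -/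
def InG {Γ₀ : Type} (N : Structures Γ₀) (σ : Equiv.Perm ℕ) : Prop := IsIso σ N N

/-- The structure `x` is an admissible expansion of `N`: the functions of `N` and of `x` are
commuting actions of `Γ₀` and `Γ`, by automorphisms of the binary relations of `N` and of `x`, and,
for these binary relations, every finite set `F` with at least three elements has a proper module
`X` with at least two elements (the elements of `X` are in the same relations with each element of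
`F` outside `X`). -/
structure Expansion {Γ₀ Γ : Type} [Group Γ₀] [Group Γ] (N : Structures Γ₀)
    (x : Structures Γ) : Prop where
  one_left : ∀ m, N.2.1 1 m = m
  mul_left : ∀ γ δ m, N.2.1 (γ * δ) m = N.2.1 γ (N.2.1 δ m)
  auto_left : ∀ γ i m n, N.1 i (N.2.1 γ m) (N.2.1 γ n) = N.1 i m n ∧
    x.1 i (N.2.1 γ m) (N.2.1 γ n) = x.1 i m n
  one : ∀ m, x.2.1 1 m = m
  mul : ∀ γ δ m, x.2.1 (γ * δ) m = x.2.1 γ (x.2.1 δ m)
  auto : ∀ γ i m n, N.1 i (x.2.1 γ m) (x.2.1 γ n) = N.1 i m n ∧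
    x.1 i (x.2.1 γ m) (x.2.1 γ n) = x.1 i m n
  comm : ∀ γ δ m, N.2.1 γ (x.2.1 δ m) = x.2.1 δ (N.2.1 γ m)
  dec : ∀ F : Finset ℕ, 3 ≤ F.card → ∃ X ⊆ F, 2 ≤ X.card ∧ X ≠ F ∧
    ∀ u ∈ X, ∀ v ∈ X, ∀ w ∈ F, w ∉ X → ∀ i, (N.1 i u w = N.1 i v w ∧ N.1 i w u = N.1 i w v) ∧
      (x.1 i u w = x.1 i v w ∧ x.1 i w u = x.1 i w v)

open Pool.Agent.Y560.TC in
private theorem hd_of {Γ₀ Γ : Type} [Group Γ₀] [Group Γ] {N : Structures Γ₀} {x : Structures Γ}
    (h : Expansion N x) : Pool.Agent.Y560.TH.HD (J N x) := by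
  have hJ : ∀ i a b c d, N.1 (i / 2) a b = N.1 (i / 2) c d → x.1 (i / 2) a b = x.1 (i / 2) c d →
      (J N x).1 i a b = (J N x).1 i c d := by
    intro i a b c d h1 h2
    show (if i % 2 = 0 then N.1 (i / 2) a b else x.1 (i / 2) a b) =
      if i % 2 = 0 then N.1 (i / 2) c d else x.1 (i / 2) c d
    rw [h1, h2]
  refine ⟨fun F hF => ?_, fun m => ?_, fun g g' m => ?_, fun g i m n => ?_⟩
  · obtain ⟨X, hX1, hX2, hX3, hX4⟩ := h.dec F hF
    refine ⟨X, ⟨hX1, fun u hu v hv w hw hwX i => ?_⟩, hX2, hX3⟩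
    have h1 := hX4 u hu v hv w hw hwX (i / 2)
    exact ⟨hJ _ _ _ _ _ h1.1.1 h1.2.1, hJ _ _ _ _ _ h1.1.2 h1.2.2⟩
  · show N.2.1 1 (x.2.1 1 m) = m
    rw [h.one, h.one_left]
  · show N.2.1 (g.1 * g'.1) (x.2.1 (g.2 * g'.2) m) =
      N.2.1 g.1 (x.2.1 g.2 (N.2.1 g'.1 (x.2.1 g'.2 m)))
    rw [h.mul, h.mul_left, h.comm g'.1 g.2]
  · refine hJ i _ _ _ _ ?_ ?_
    · show N.1 (i / 2) (N.2.1 g.1 (x.2.1 g.2 m)) (N.2.1 g.1 (x.2.1 g.2 n)) = N.1 (i / 2) m n
      rw [(h.auto_left _ _ _ _).1, (h.auto _ _ _ _).1]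
    · show x.1 (i / 2) (N.2.1 g.1 (x.2.1 g.2 m)) (N.2.1 g.1 (x.2.1 g.2 n)) = x.1 (i / 2) m n
      rw [(h.auto_left _ _ _ _).2, (h.auto _ _ _ _).2]

/-- Let `Γ₀` and `Γ` be countable groups, `N` a structure, and `G` the group of its automorphisms.
Every `G`-invariant Borel set `B` of admissible expansions of `N` contains countably many
`G`-orbits, or there is a continuous map from the Cantor space into `B` that sends different points
to different `G`-orbits. -/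
theorem result (Γ₀ Γ : Type) [Group Γ₀] [Countable Γ₀] [Group Γ] [Countable Γ]
    (N : Structures Γ₀) (B : Set (Structures Γ)) (hB : MeasurableSet B)
    (hE : ∀ x ∈ B, Expansion N x)
    (hi : ∀ x ∈ B, ∀ (y : Structures Γ) (σ : Equiv.Perm ℕ), InG N σ → IsIso σ x y → y ∈ B) :
    (∃ f : ℕ → Structures Γ, ∀ x ∈ B, ∃ (n : ℕ) (σ : Equiv.Perm ℕ),
      InG N σ ∧ IsIso σ (f n) x) ∨
    (∃ c : (ℕ → Bool) → Structures Γ, Continuous c ∧ (∀ a, c a ∈ B) ∧
      ∀ a b, (∃ σ : Equiv.Perm ℕ, InG N σ ∧ IsIso σ (c a) (c b)) → a = b) := by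
  by_cases hne : B.Nonempty
  · obtain ⟨x₀, hx₀⟩ := hne
    exact Pool.Agent.Y560.TC.t_TC (Pool.Agent.Y576.TH.t_TD
      (fun Δ _ _ => Pool.Agent.Y560.TF.out Δ) Pool.Agent.Y259.TH.t_TDA
      Pool.Agent.Y641.TH.t_TDB) Γ₀ Γ N B hB (hE x₀ hx₀).one_left (fun x hx => (hE x hx).one)
      (fun x hx => hd_of (hE x hx)) hi
  · exact Or.inl ⟨fun _ => (fun _ _ _ => false, fun _ _ => 0, fun _ _ => false),
      fun x hx => absurd ⟨x, hx⟩ hne⟩

end Pool.Agent.Results.MP_5607ba_lc.ConjugationActions
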