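import Pool.Agent.Y560.TQ.All
import Pool.Agent.Y560.TF.All
import Pool.Agent.Y560.TH.MedD
import Pool.Agent.Y815.TH.Loc
import Pool.Agent.Y794.TQ.Geo
import Pool.Agent.Y672.TQ.Dec
import Pool.Agent.Y672.TQ.Uni
import Pool.Agent.Y319.TQ.EX
import Pool.Agent.Y349.TQ.Me
import Pool.Agent.Y70.TQ.Drel

set_option autoImplicit false

/-!
The countable-or-perfect dichotomy for D-relations (the leaves of unrooted trees, possibly dense)
with an action of an arbitrary countable group, and unary predicates.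
-/

namespace Pool.Agent.Results.MP_5607ba_lc.DRelationActions

/-- Structures on `ℕ`: a quaternary relation `x.1`, a function `x.2.1 γ` for every `γ` in `Γ`, and
unary predicates `x.2.2 i`. -/
abbrev Structures (Γ : Type) : Type := (ℕ → ℕ → ℕ → ℕ → Bool) × (Γ → ℕ → ℕ) × (ℕ → ℕ → Bool)

/-- `x.1` is a D-relation: `x.1 a b c d` says that, in an unrooted tree whose leaves are the natural
numbers, the path from the leaf `a` to the leaf `b` is disjoint from the path from `c` to `d` (the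
axioms of Adeleke and Neumann); and `x.2.1` is an action of `Γ` by automorphisms of this
relation. -/
structure DRelationAction {Γ : Type} [Group Γ] (x : Structures Γ) : Prop where
  swap : ∀ a b c d, x.1 a b c d = true → x.1 b a c d = true
  comm : ∀ a b c d, x.1 a b c d = true → x.1 c d a b = true
  excl : ∀ a b c d, x.1 a b c d = true → x.1 a c b d = false
  split : ∀ a b c d u, x.1 a b c d = true → x.1 u b c d = true ∨ x.1 a b c u = true
  pair : ∀ a b c, a ≠ c → b ≠ c → x.1 a b c c = true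
  one : ∀ m, x.2.1 1 m = m
  mul : ∀ γ δ m, x.2.1 (γ * δ) m = x.2.1 γ (x.2.1 δ m)
  auto : ∀ γ a b c d, x.1 a b c d = true →
    x.1 (x.2.1 γ a) (x.2.1 γ b) (x.2.1 γ c) (x.2.1 γ d) = true

/-- `σ` is an isomorphism from `x` to `y`. The two structures are in one orbit of the action of the
Polish group of permutations of `ℕ` by relabelling. -/
def IsIso {Γ : Type} (σ : Equiv.Perm ℕ) (x y : Structures Γ) : Prop :=
  (∀ a b c d, y.1 (σ a) (σ b) (σ c) (σ d) = x.1 a b c d) ∧
    (∀ γ m, y.2.1 γ (σ m) = σ (x.2.1 γ m)) ∧ ∀ i m, y.2.2 i (σ m) = x.2.2 i m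

/-- Let `Γ` be a countable group. Every invariant Borel set `B` of D-relations on `ℕ` with an action
of `Γ` by automorphisms, and with unary predicates, contains countably many orbits, or there is a
continuous map from the Cantor space into `B` that sends different points to different orbits. -/
theorem result (Γ : Type) [Group Γ] [Countable Γ] (B : Set (Structures Γ))
    (hB : MeasurableSet B) (hD : ∀ x ∈ B, DRelationAction x)
    (hi : ∀ x ∈ B, ∀ (y : Structures Γ) (σ : Equiv.Perm ℕ), IsIso σ x y → y ∈ B) :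
    (∃ f : ℕ → Structures Γ, ∀ x ∈ B, ∃ (n : ℕ) (σ : Equiv.Perm ℕ), IsIso σ (f n) x) ∨
    (∃ c : (ℕ → Bool) → Structures Γ, Continuous c ∧ (∀ a, c a ∈ B) ∧
      ∀ a b, (∃ σ : Equiv.Perm ℕ, IsIso σ (c a) (c b)) → a = b) := by
  refine Pool.Agent.Y560.TQ.t_QUA (Pool.Agent.Y560.TH.t_MED (Pool.Agent.Y815.TH.t_LOC
    (fun Δ _ _ => Pool.Agent.Y560.TF.out Δ))) Pool.Agent.Y794.TQ.Geo.t_GEO
    Pool.Agent.Y319.TQ.t_QEX Pool.Agent.Y672.TQ.t_QDF Pool.Agent.Y672.TQ.t_QIN
    Pool.Agent.Y672.TQ.t_QUN Pool.Agent.Y349.TQ.t_QME Pool.Agent.Y349.TQ.isoQ_symm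
    Pool.Agent.Y349.TQ.isoQ_trans Γ B hB (fun x hx => ?_) hi
  have h := hD x hx
  obtain ⟨M, I, e, h1, h2, h3⟩ := Pool.Agent.Y70.TQ.t_DRL (fun a b c d => x.1 a b c d = true)
    ⟨h.swap, h.comm, fun a b c d hab => by rw [h.excl a b c d hab]; exact Bool.false_ne_true,
      h.split, h.pair⟩
  refine ⟨⟨M, I, e, h1, h2, h3⟩, h.one, h.mul, fun γ a b c d => ?_⟩
  cases hx1 : x.1 a b c d with
  | true => exact h.auto γ a b c d hx1
  | false =>
    cases hx2 : x.1 (x.2.1 γ a) (x.2.1 γ b) (x.2.1 γ c) (x.2.1 γ d) with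
    | false => rfl
    | true =>
      have hinv : ∀ m, x.2.1 γ⁻¹ (x.2.1 γ m) = m := fun m => by
        rw [← h.mul, inv_mul_cancel, h.one]
      have h4 := h.auto γ⁻¹ _ _ _ _ hx2
      rw [hinv, hinv, hinv, hinv, hx1] at h4
      exact absurd h4 Bool.false_ne_true

end Pool.Agent.Results.MP_5607ba_lc.DRelationActions
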