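import Pool.Agent.Y560.TF.All
import Pool.Agent.Y454.TH.Hym
import Pool.Agent.Y564.TH.Hyb

set_option autoImplicit false

/-!
The countable-or-perfect dichotomy for countable subspaces of real trees with an isometric action
of an arbitrary countable group, and unary predicates.
-/

namespace Pool.Agent.Results.MP_5607ba_lc.HyperbolicIsometries

/-- Structures on `ℕ`: a distance `x.1`, a function `x.2.1 γ` for every `γ` in `Γ`, and unary
predicates `x.2.2 i`. -/
abbrev Structures (Γ : Type) : Type := (ℕ → ℕ → ℝ) × (Γ → ℕ → ℕ) × (ℕ → ℕ → Bool)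

/-- `x.1` is a metric on `ℕ` with the four point condition (the triangle inequality is the case
`c = d` of the four point condition), `x.2.1` is an action of `Γ` by isometries. -/
structure HyperbolicAction {Γ : Type} [Group Γ] (x : Structures Γ) : Prop where
  zero : ∀ a b, x.1 a b = 0 ↔ a = b
  symm : ∀ a b, x.1 a b = x.1 b a
  four : ∀ a b c d, x.1 a b + x.1 c d ≤ max (x.1 a c + x.1 b d) (x.1 a d + x.1 b c)
  one : ∀ m, x.2.1 1 m = m
  mul : ∀ γ δ m, x.2.1 (γ * δ) m = x.2.1 γ (x.2.1 δ m)
  isometry : ∀ γ a b, x.1 (x.2.1 γ a) (x.2.1 γ b) = x.1 a b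

/-- `σ` is an isomorphism from `x` to `y`: an equivariant isometry which preserves the predicates.
The two structures are in one orbit of the action of the Polish group of permutations of `ℕ` by
relabelling. -/
def IsIso {Γ : Type} (σ : Equiv.Perm ℕ) (x y : Structures Γ) : Prop :=
  (∀ a b, y.1 (σ a) (σ b) = x.1 a b) ∧ (∀ γ m, y.2.1 γ (σ m) = σ (x.2.1 γ m)) ∧
    ∀ i m, y.2.2 i (σ m) = x.2.2 i m

/-- Let `Γ` be a countable group. Every invariant Borel set `B` of metrics on `ℕ` with the four
point condition (metric spaces which embed isometrically into real trees) with an action of `Γ` by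
isometries, and with unary predicates, contains countably many orbits, or there is a continuous map
from the Cantor space into `B` that sends different points to different orbits. -/
theorem result (Γ : Type) [Group Γ] [Countable Γ] (B : Set (Structures Γ))
    (hB : MeasurableSet B) (hH : ∀ x ∈ B, HyperbolicAction x)
    (hi : ∀ x ∈ B, ∀ (y : Structures Γ) (σ : Equiv.Perm ℕ), IsIso σ x y → y ∈ B) :
    (∃ f : ℕ → Structures Γ, ∀ x ∈ B, ∃ (n : ℕ) (σ : Equiv.Perm ℕ), IsIso σ (f n) x) ∨
    (∃ c : (ℕ → Bool) → Structures Γ, Continuous c ∧ (∀ a, c a ∈ B) ∧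
      ∀ a b, (∃ σ : Equiv.Perm ℕ, IsIso σ (c a) (c b)) → a = b) :=
  Pool.Agent.Y454.TH.t_HYP (fun Δ _ _ => Pool.Agent.Y560.TF.out Δ)
    Pool.Agent.Y564.TH.t_HYB Pool.Agent.Y454.TH.t_HYM Γ B hB
    (fun x hx => ⟨(hH x hx).zero, (hH x hx).symm, (hH x hx).four,
      (hH x hx).one, (hH x hx).mul, (hH x hx).isometry⟩) hi

end Pool.Agent.Results.MP_5607ba_lc.HyperbolicIsometries
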